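import Mathlib

/-!
The complete Boolean algebra adding a generic function `J → Bool` by countable conditions.
-/

namespace Pool.Agent.Lib.SigmaBox

open TopologicalSpace Heyting Set

/-- Functions `J → Bool` with the topology generated by countable conditions. -/
def Sp (J : Type) : Type := J → Bool

/-- Precomposition. -/
def Sp.pull {J : Type} (ω : Sp J) (g : J → J) : Sp J := fun j => ω (g j)

instance (J : Type) : TopologicalSpace (Sp J) where
  IsOpen U := ∀ ω ∈ U, ∃ s : Set J, s.Countable ∧ ∀ ω' : Sp J, (∀ j ∈ s, ω' j = ω j) → ω' ∈ U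
  isOpen_univ := fun _ _ => ⟨∅, countable_empty, fun _ _ => trivial⟩
  isOpen_inter := fun _ _ hU hV ω h => by
    obtain ⟨s, hs, h1⟩ := hU ω h.1
    obtain ⟨t, ht, h2⟩ := hV ω h.2
    exact ⟨s ∪ t, hs.union ht, fun ω' e =>
      ⟨h1 ω' fun j hj => e j (Or.inl hj), h2 ω' fun j hj => e j (Or.inr hj)⟩⟩
  isOpen_sUnion := fun _ hS ω ⟨U, hU, h⟩ => by
    obtain ⟨s, hs, h1⟩ := hS U hU ω h
    exact ⟨s, hs, fun ω' e => ⟨U, hU, h1 ω' e⟩⟩

/-- Regular open sets. -/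
def Box (J : Type) : Type := Regular (Opens (Sp J))

namespace Box

variable {J : Type}

noncomputable instance : CompleteBooleanAlgebra (Box J) :=
  { (inferInstance : BooleanAlgebra (Regular (Opens (Sp J)))),
    (Regular.gi (α := Opens (Sp J))).liftCompleteLattice with }

/-- The underlying set. -/
def pt (b : Box J) : Set (Sp J) := (Regular.val b : Opens (Sp J))

theorem le_iff {a b : Box J} : a ≤ b ↔ pt a ⊆ pt b := Iff.rfl

theorem pt_inf (a b : Box J) : pt (a ⊓ b) = pt a ∩ pt b := rfl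

theorem pt_bot : pt (⊥ : Box J) = ∅ := rfl

theorem isOpen_pt (b : Box J) : IsOpen (pt b) := (Regular.val b : Opens (Sp J)).2

theorem ext {a b : Box J} (h : pt a = pt b) : a = b :=
  le_antisymm (le_iff.2 h.le) (le_iff.2 h.ge)

theorem ne_bot_iff {b : Box J} : b ≠ ⊥ ↔ (pt b).Nonempty := by
  rw [nonempty_iff_ne_empty, ← pt_bot]
  exact not_congr ⟨fun h => h ▸ rfl, ext⟩

/-- A clopen set as an element of the algebra. -/
def clo (U : Set (Sp J)) (h1 : IsOpen U) (h2 : IsOpen Uᶜ) : Box J :=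
  ⟨⟨U, h1⟩, by
    have h : IsCompl (⟨U, h1⟩ : Opens (Sp J)) ⟨Uᶜ, h2⟩ :=
      ⟨disjoint_iff.2 (Opens.ext (by simp)), codisjoint_iff.2 (Opens.ext (by simp))⟩
    rw [Heyting.IsRegular, h.compl_eq, h.symm.compl_eq]⟩

/-- Countable conditions. -/
def cnd (s : Set J) (hs : s.Countable) (ω : Sp J) : Box J :=
  clo {ω' | ∀ j ∈ s, ω' j = ω j} (fun _ h => ⟨s, hs, fun _ e j hj => (e j hj).trans (h j hj)⟩)
    (fun ω' h => by
      simp only [mem_compl_iff, mem_ofPred_eq, not_forall] at h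
      obtain ⟨j, hj, h⟩ := h
      exact ⟨{j}, countable_singleton j, fun ω'' e h' => h ((e j rfl).symm.trans (h' j hj))⟩)

theorem mem_cnd {s : Set J} {hs : s.Countable} {ω ω' : Sp J} :
    ω' ∈ pt (cnd s hs ω) ↔ ∀ j ∈ s, ω' j = ω j := Iff.rfl

theorem cnd_ne_bot (s : Set J) (hs : s.Countable) (ω : Sp J) : cnd s hs ω ≠ ⊥ :=
  ne_bot_iff.2 ⟨ω, fun _ _ => rfl⟩

/-- Literals. -/
def lit (j : J) (v : Bool) : Box J := cnd {j} (countable_singleton j) fun _ => v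

theorem mem_lit {j : J} {v : Bool} {ω : Sp J} : ω ∈ pt (lit j v) ↔ ω j = v :=
  ⟨fun h => h j rfl, fun h _ e => e ▸ h⟩

theorem lit_inf (j : J) : lit j true ⊓ lit j false = ⊥ := by
  by_contra h
  obtain ⟨ω, h1, h2⟩ := ne_bot_iff.1 h
  exact Bool.noConfusion ((mem_lit.1 h1).symm.trans (mem_lit.1 h2))

theorem dense (b : Box J) (hb : b ≠ ⊥) : ∃ s hs ω, cnd s hs ω ≤ b := by
  obtain ⟨ω, hω⟩ := ne_bot_iff.1 hb
  obtain ⟨s, hs, h⟩ := isOpen_pt b ω hω
  exact ⟨s, hs, ω, h⟩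

theorem iSup_eq_top {ι : Sort*} (b : ι → Box J)
    (h : ∀ s hs ω, ∃ i ω', ω' ∈ pt (cnd s hs ω) ∧ ω' ∈ pt (b i)) : ⨆ i, b i = ⊤ := by
  by_contra hne
  obtain ⟨s, hs, ω, h2⟩ := dense (⨆ i, b i)ᶜ (by simpa using hne)
  obtain ⟨i, ω', h3, h4⟩ := h s hs ω
  have : ω' ∈ pt ((⨆ i, b i)ᶜ ⊓ ⨆ i, b i) := ⟨h2 h3, le_iff.1 (le_iSup b i) h4⟩
  rw [compl_inf_eq_bot] at this
  exact this

/-- Countably many dense sets are met by one condition. -/
theorem fusion {κ : ℕ → Sort*} (d : ∀ i, κ i → Box J) (b : Box J) (hb : b ≠ ⊥)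
    (hd : ∀ i, b ≤ ⨆ k, d i k) :
    ∃ s hs ω, cnd s hs ω ≤ b ∧ ∃ k : ∀ i, κ i, ∀ i, cnd s hs ω ≤ d i (k i) := by
  classical
  let C := {p : {s : Set J // s.Countable} × Sp J // cnd p.1.1 p.1.2 p.2 ≤ b}
  have step : ∀ (i : ℕ) (p : C), ∃ q : C, p.1.1.1 ⊆ q.1.1.1 ∧ (∀ j ∈ p.1.1.1, q.1.2 j = p.1.2 j) ∧
      ∃ k, cnd q.1.1.1 q.1.1.2 q.1.2 ≤ d i k := by
    rintro i ⟨⟨⟨s, hs⟩, ω⟩, hp⟩
    have h1 : ∃ k, cnd s hs ω ⊓ d i k ≠ ⊥ := by
      by_contra h
      push Not at h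
      apply cnd_ne_bot s hs ω
      rw [← inf_eq_left.2 (hp.trans (hd i)), inf_iSup_eq]
      simp [h]
    obtain ⟨k, hk⟩ := h1
    obtain ⟨t, ht, ω', h⟩ := dense _ hk
    have h2 : cnd (s ∪ t) (hs.union ht) ω' ≤ cnd t ht ω' := fun _ e j hj => e j (Or.inr hj)
    exact ⟨⟨⟨⟨s ∪ t, hs.union ht⟩, ω'⟩, h2.trans (h.trans (inf_le_left.trans hp))⟩,
      subset_union_left, (h fun _ _ => rfl).1, k, h2.trans (h.trans inf_le_right)⟩
  choose nx h1 h2 k hk using step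
  obtain ⟨s0, hs0, ω0, h0⟩ := dense b hb
  let p : ℕ → C := fun n => Nat.rec ⟨⟨⟨s0, hs0⟩, ω0⟩, h0⟩ nx n
  have hm : ∀ m n, m ≤ n → (p m).1.1.1 ⊆ (p n).1.1.1 ∧
      ∀ j ∈ (p m).1.1.1, (p n).1.2 j = (p m).1.2 j := by
    intro m n h
    induction h with
    | refl => exact ⟨le_rfl, fun _ _ => rfl⟩
    | step _ ih => exact ⟨ih.1.trans (h1 _ _), fun j hj => (h2 _ _ j (ih.1 hj)).trans (ih.2 j hj)⟩
  let ω : Sp J := fun j => if h : ∃ n, j ∈ (p n).1.1.1 then (p (Nat.find h)).1.2 j else true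
  have hs : (⋃ n, (p n).1.1.1).Countable := countable_iUnion fun n => (p n).1.1.2
  have hle : ∀ n, cnd _ hs ω ≤ cnd (p n).1.1.1 (p n).1.1.2 (p n).1.2 := fun n ω' e j hj => by
    have h : ∃ n, j ∈ (p n).1.1.1 := ⟨n, hj⟩
    rw [e j (mem_iUnion.2 h)]
    simp only [ω, dif_pos h]
    exact ((hm _ n (Nat.find_min' h hj)).2 j (Nat.find_spec h)).symm
  exact ⟨_, hs, ω, (hle 0).trans h0, fun i => k i (p i), fun i => (hle (i + 1)).trans (hk i (p i))⟩

theorem isOpen_comp (g : J → J) {U : Set (Sp J)} (hU : IsOpen U) :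
    IsOpen {ω : Sp J | ω.pull g ∈ U} := fun ω h => by
  obtain ⟨s, hs, h1⟩ := hU _ h
  exact ⟨g '' s, hs.image g, fun ω' e => h1 _ fun j hj => e _ (mem_image_of_mem g hj)⟩

theorem pull1 (g : Equiv.Perm J) (ω : Sp J) : (ω.pull g.symm).pull g = ω :=
  funext fun j => congrArg ω (g.symm_apply_apply j)

theorem pull2 (g : Equiv.Perm J) (ω : Sp J) : (ω.pull g).pull g.symm = ω :=
  funext fun j => congrArg ω (g.apply_symm_apply j)

/-- Action on open sets. -/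
def oact (g : Equiv.Perm J) : Opens (Sp J) ≃o Opens (Sp J) where
  toFun U := ⟨{ω | ω.pull g ∈ U}, isOpen_comp g U.2⟩
  invFun U := ⟨{ω | ω.pull g.symm ∈ U}, isOpen_comp g.symm U.2⟩
  left_inv U := by
    ext ω
    change (ω.pull g.symm).pull g ∈ U ↔ _
    rw [pull1]; rfl
  right_inv U := by
    ext ω
    change (ω.pull g).pull g.symm ∈ U ↔ _
    rw [pull2]; rfl
  map_rel_iff' := by
    intro U V
    refine ⟨fun h ω hω => ?_, fun h ω hω => h hω⟩
    have := @h (ω.pull g.symm) (show (ω.pull g.symm).pull g ∈ U from (pull1 g ω).symm ▸ hω)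
    exact pull1 g ω ▸ (show (ω.pull g.symm).pull g ∈ V from this)

/-- Action on regular open sets. -/
def ract (g : Equiv.Perm J) : Box J ≃o Box J where
  toFun b := ⟨oact g b.1, by rw [Heyting.IsRegular, ← map_compl, ← map_compl, b.2.eq]⟩
  invFun b := ⟨(oact g).symm b.1, by rw [Heyting.IsRegular, ← map_compl, ← map_compl, b.2.eq]⟩
  left_inv b := Subtype.ext ((oact g).symm_apply_apply _)
  right_inv b := Subtype.ext ((oact g).apply_symm_apply _)
  map_rel_iff' := (oact g).le_iff_le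

/-- The action of the permutations of the coordinates. -/
def hom : Equiv.Perm J →* (Box J ≃o Box J) where
  toFun := ract
  map_one' := RelIso.ext fun _ => rfl
  map_mul' _ _ := RelIso.ext fun _ => rfl

theorem mem_hom {g : Equiv.Perm J} {b : Box J} {ω : Sp J} :
    ω ∈ pt (hom g b) ↔ ω.pull g ∈ pt b := Iff.rfl

theorem hom_lit (g : Equiv.Perm J) (j : J) (v : Bool) : hom g (lit j v) = lit (g j) v :=
  ext (Set.ext fun ω => by rw [mem_hom, mem_lit, mem_lit]; rfl)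

theorem hom_cnd (g : Equiv.Perm J) (s : Set J) (hs : s.Countable) (ω : Sp J)
    (h : ∀ j ∈ s, g j = j) : hom g (cnd s hs ω) = cnd s hs ω :=
  ext (Set.ext fun ω' => by
    rw [mem_hom, mem_cnd, mem_cnd]
    exact forall₂_congr fun j hj => by rw [Sp.pull, h j hj])

end Box

end Pool.Agent.Lib.SigmaBox
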