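import Mathlib

/-!
A sequence of forests on `ω₁` of bounded height that are coherent modulo finite sets.
-/

namespace Pool.Agent.Lib.SigmaBox

open Filter Cardinal

/-- The first uncountable well-order. -/
def T : Type := (Cardinal.aleph 1).ord.ToType

noncomputable instance : LinearOrder T :=
  inferInstanceAs (LinearOrder (Cardinal.aleph 1).ord.ToType)

instance : WellFoundedLT T := inferInstanceAs (WellFoundedLT (Cardinal.aleph 1).ord.ToType)

theorem mk_T : #T = Cardinal.aleph 1 := Cardinal.mk_ord_toType _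

theorem countable_Iio (a : T) : (Set.Iio a).Countable := by
  have h : #(Set.Iio a) < #T := Cardinal.mk_Iio_lt a (by
    rw [mk_T]; exact (Ordinal.type_toType _).symm)
  rw [mk_T, ← Cardinal.succ_aleph0, Order.lt_succ_iff] at h
  exact Cardinal.le_aleph0_iff_set_countable.1 h

theorem exists_ub {s : Set T} (hs : s.Countable) : ∃ b, ∀ a ∈ s, a < b := by
  by_contra h
  push Not at h
  have h1 : (Set.univ : Set T).Countable := by
    refine (hs.biUnion fun a _ => (countable_Iio a).insert a).mono fun x _ => ?_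
    obtain ⟨a, ha, hx⟩ := h x
    exact Set.mem_biUnion ha (hx.eq_or_lt)
  have h2 := Cardinal.le_aleph0_iff_set_countable.2 h1
  rw [Cardinal.mk_univ, mk_T] at h2
  exact absurd h2 (not_le.2 Cardinal.aleph0_lt_aleph_one)

instance : Nonempty T := (exists_ub Set.countable_empty).nonempty

theorem exists_rec {X : Type} [Nonempty X] (Step : T → (T → X) → X → Prop)
    (hc : ∀ b f g x, (∀ a < b, f a = g a) → Step b f x → Step b g x)
    (hs : ∀ b f, (∀ a < b, Step a f (f a)) → ∃ x, Step b f x) : ∃ f, ∀ b, Step b f (f b) := by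
  classical
  let ext : ∀ b : T, (∀ a, a < b → X) → T → X := fun b p a =>
    if h : a < b then p a h else Classical.arbitrary X
  let f : T → X := (wellFounded_lt (α := T)).fix fun b p => Classical.epsilon (Step b (ext b p))
  have hf : ∀ b, f b = Classical.epsilon (Step b (ext b fun a _ => f a)) := fun b =>
    WellFounded.fix_eq _ _ b
  refine ⟨f, fun b => ?_⟩
  induction b using (wellFounded_lt (α := T)).induction with
  | _ b ih =>
    obtain ⟨x, hx⟩ := hs b f ih
    have e : ∀ a < b, f a = ext b (fun a _ => f a) a := fun a ha => by simp [ext, ha]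
    rw [hf]
    exact hc b _ _ _ (fun a ha => (e a ha).symm)
      (Classical.epsilon_spec (p := Step b (ext b fun a _ => f a)) ⟨x, hc b _ _ _ e hx⟩)

open Classical in
/-- One step of the construction. -/
def Step (b : T) (f : T → ℕ → Finset T) (x : ℕ → Finset T) : Prop :=
  (∀ n, x n = {b} ∨ ∃ a < b, x n = insert b (f a n)) ∧ (∀ n, (x n).card ≤ n + 1) ∧
    (∀ k, ∀ᶠ n in atTop, (x n).card + k ≤ n) ∧ ∀ a < b, ∀ᶠ n in atTop, a ∈ x n

theorem Step.self {b : T} {f : T → ℕ → Finset T} {x : ℕ → Finset T} (h : Step b f x) (n : ℕ) :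
    b ∈ x n := by
  rcases h.1 n with e | ⟨a, -, e⟩ <;> simp [e]

theorem exists_step (b : T) (f : T → ℕ → Finset T) (ih : ∀ a < b, Step a f (f a)) :
    ∃ x, Step b f x := by
  classical
  by_cases hb : (Set.Iio b).Nonempty
  swap
  · refine ⟨fun _ => {b}, fun _ => Or.inl rfl, fun n => by simp, fun k => ?_,
      fun a ha => (hb ⟨a, ha⟩).elim⟩
    filter_upwards [eventually_ge_atTop (k + 1)] with n hn
    simp; omega
  obtain ⟨e, he⟩ := (countable_Iio b).exists_eq_range hb
  have heb : ∀ i, e i < b := fun i => by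
    have : e i ∈ Set.Iio b := he ▸ Set.mem_range_self i
    exact this
  let c : ℕ → T := fun k => (Finset.range (k + 1)).sup' (by simp) e
  have hcb : ∀ k, c k < b := fun k => (Finset.sup'_lt_iff _).2 fun i _ => heb i
  have hec : ∀ k, ∀ i ≤ k, e i ≤ c k := fun k i hi =>
    Finset.le_sup' e (Finset.mem_range.2 (by omega))
  have hN : ∀ k, ∃ N, ∀ n ≥ N, (∀ i ≤ k, e i ∈ f (c k) n) ∧ (f (c k) n).card + (k + 1) ≤ n := by
    intro k
    rw [← eventually_atTop]
    refine Eventually.and ?_ ((ih _ (hcb k)).2.2.1 _)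
    have : ∀ i ∈ Finset.range (k + 1), ∀ᶠ n in atTop, e i ∈ f (c k) n := fun i hi => by
      rcases (hec k i (by simpa [Nat.lt_succ_iff] using hi)).eq_or_lt with h | h
      · exact Eventually.of_forall fun n => h ▸ (ih _ (hcb k)).self n
      · exact (ih _ (hcb k)).2.2.2 _ h
    filter_upwards [(eventually_all_finset _).2 this] with n hn i hi
    exact hn i (Finset.mem_range.2 (by omega))
  choose N hN using hN
  let κ : ℕ → ℕ := fun n => Nat.findGreatest (fun k => N k ≤ n) n
  have hκ : ∀ k, ∀ᶠ n in atTop, k ≤ κ n ∧ N (κ n) ≤ n := fun k => by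
    filter_upwards [eventually_ge_atTop k, eventually_ge_atTop (N k)] with n h1 h2
    exact ⟨Nat.le_findGreatest h1 h2, Nat.findGreatest_spec (P := fun k => N k ≤ n) h1 h2⟩
  refine ⟨fun n => if N (κ n) ≤ n then insert b (f (c (κ n)) n) else {b}, fun n => ?_,
    fun n => ?_, fun k => ?_, fun a ha => ?_⟩
  · by_cases h : N (κ n) ≤ n
    · exact Or.inr ⟨_, hcb _, if_pos h⟩
    · exact Or.inl (if_neg h)
  · by_cases h : N (κ n) ≤ n
    · simp only [if_pos h]
      have := (hN _ n h).2
      have := Finset.card_insert_le b (f (c (κ n)) n)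
      omega
    · simp [h]
  · filter_upwards [hκ k] with n hn
    simp only [if_pos hn.2]
    have := (hN _ n hn.2).2
    have := Finset.card_insert_le b (f (c (κ n)) n)
    omega
  · obtain ⟨i, rfl⟩ : a ∈ Set.range e := he ▸ ha
    filter_upwards [hκ i] with n hn
    simp only [if_pos hn.2]
    exact Finset.mem_insert_of_mem ((hN _ n hn.2).1 i hn.1)

theorem exists_F : ∃ f : T → ℕ → Finset T, ∀ b, Step b f (f b) :=
  exists_rec Step (fun b f g x h hx => ⟨fun n => (hx.1 n).imp_right fun ⟨a, ha, e⟩ =>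
    ⟨a, ha, h a ha ▸ e⟩, hx.2⟩) exists_step

/-- The chain below `b` in the `n`-th forest. -/
noncomputable def F (n : ℕ) (b : T) : Finset T := exists_F.choose b n

theorem step_F (b : T) : Step b (fun a n => F n a) (fun n => F n b) := exists_F.choose_spec b

theorem self_mem_F (n : ℕ) (b : T) : b ∈ F n b := (step_F b).self n

theorem mem_F (n : ℕ) (b : T) : ∀ a ∈ F n b, a ≤ b ∧ ∀ x, x ∈ F n a ↔ x ∈ F n b ∧ x ≤ a := by
  induction b using (wellFounded_lt (α := T)).induction with
  | _ b ih =>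
    rcases (step_F b).1 n with e | ⟨c, hc, e⟩
    · intro a ha
      simp only at e
      rw [e, Finset.mem_singleton] at ha
      subst ha
      refine ⟨le_rfl, fun x => ⟨fun h => ⟨h, ?_⟩, fun h => h.1⟩⟩
      rw [e, Finset.mem_singleton] at h
      exact h.le
    · simp only at e
      have hle : ∀ x ∈ F n b, x ≤ b := fun x hx => by
        rw [e, Finset.mem_insert] at hx
        exact hx.elim le_of_eq fun h => ((ih c hc x h).1.trans hc.le)
      intro a ha
      refine ⟨hle a ha, fun x => ?_⟩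
      rcases (hle a ha).eq_or_lt with rfl | hab
      · exact ⟨fun h => ⟨h, hle x h⟩, fun h => h.1⟩
      · rw [e, Finset.mem_insert] at ha ⊢
        rw [(ih c hc a (ha.resolve_left hab.ne)).2]
        exact ⟨fun h => ⟨Or.inr h.1, h.2⟩,
          fun h => ⟨h.1.resolve_left (h.2.trans_lt hab).ne, h.2⟩⟩

/-- The rank. -/
noncomputable def rk (n : ℕ) (b : T) : ℕ := n + 1 - (F n b).card

/-- The root of `b` above `c`. -/
noncomputable def rt (n : ℕ) (c b : T) : T :=
  if h : c ≤ b then ((F n b).filter (c ≤ ·)).min' ⟨b, by simp [self_mem_F, h]⟩ else b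

theorem rt_spec {n : ℕ} {c b : T} (h : c ≤ b) :
    rt n c b ∈ F n b ∧ c ≤ rt n c b ∧ ∀ x ∈ F n b, c ≤ x → rt n c b ≤ x := by
  rw [rt, dif_pos h]
  have := Finset.mem_filter.1 (Finset.min'_mem ((F n b).filter (c ≤ ·))
    ⟨b, by simp [self_mem_F, h]⟩)
  exact ⟨this.1, this.2, fun x hx hc => Finset.min'_le _ _ (Finset.mem_filter.2 ⟨hx, hc⟩)⟩

theorem rt_eq {n : ℕ} {c a b : T} (ha : a ∈ F n b) (hc : c ≤ a) : rt n c a = rt n c b := by
  obtain ⟨h1, h2⟩ := mem_F n b a ha
  obtain ⟨a1, a2, a3⟩ := rt_spec (n := n) hc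
  obtain ⟨b1, b2, b3⟩ := rt_spec (n := n) (hc.trans h1)
  exact le_antisymm (a3 _ ((h2 _).2 ⟨b1, b3 a ha hc⟩) b2) (b3 _ ((h2 _).1 a1).1 a2)

theorem rt_rt (n : ℕ) {c c' : T} (h : c ≤ c') (a : T) : rt n c (rt n c' a) = rt n c a := by
  by_cases hc : c' ≤ a
  · exact rt_eq (rt_spec hc).1 (h.trans (rt_spec hc).2.1)
  · rw [rt.eq_def n c' a, dif_neg hc]

theorem rk_lt {n : ℕ} {c a : T} (h : rt n c a ≠ a) : rk n a < rk n (rt n c a) := by
  have hc : c ≤ a := by
    by_contra hc
    exact h (dif_neg hc)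
  obtain ⟨h1, h2⟩ := mem_F n a _ (rt_spec (n := n) hc).1
  have : F n (rt n c a) ⊂ F n a := ⟨fun x hx => ((h2 x).1 hx).1, fun hs =>
    h (le_antisymm h1 ((h2 a).1 (hs (self_mem_F n a))).2)⟩
  have h3 := Finset.card_lt_card this
  have h4 : (F n a).card ≤ n + 1 := (step_F a).2.1 n
  unfold rk
  omega

theorem rk_le_rt (n : ℕ) (c a : T) : rk n a ≤ rk n (rt n c a) := by
  by_cases h : rt n c a = a
  · rw [h]
  · exact (rk_lt h).le

theorem rk_le (n : ℕ) (a : T) : rk n a ≤ n := by
  have := Finset.card_pos.2 ⟨a, self_mem_F n a⟩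
  unfold rk
  omega

theorem rk_pos (a : T) : ∀ᶠ n in atTop, 0 < rk n a := by
  filter_upwards [(step_F a).2.2.1 0] with n hn
  unfold rk
  omega

theorem rt_ev {a b : T} (h : a ≤ b) : ∀ᶠ n in atTop, ∀ c ≤ a, rt n c a = rt n c b := by
  rcases h.eq_or_lt with rfl | h
  · exact Eventually.of_forall fun _ _ _ => rfl
  · filter_upwards [(step_F b).2.2.2 a h] with n hn c hc
    exact rt_eq hn hc

end Pool.Agent.Lib.SigmaBox
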